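import Pool.Agent.Q158.HT.Defs

/-! # Boundaries: faces, the boundary of a boundary, rank -/

set_option autoImplicit false

namespace Pool.Agent.Q158.HT

open Finset

variable {n : ℕ}

theorem bd_eq_zero {σ f : Finset (Fin n)} (h : ¬ f ⊆ σ) : bd σ f = 0 := by
  unfold bd
  refine Finset.sum_eq_zero fun y _ => ?_
  rw [if_neg]
  rintro rfl
  exact h (Finset.erase_subset _ _)

theorem bd_ne_zero {σ f : Finset (Fin n)} (h : f ⊆ σ) (hc : f.card + 1 = σ.card) : bd σ f ≠ 0 := by
  obtain ⟨y, hy⟩ : ∃ y, σ \ f = {y} := by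
    rw [← Finset.card_eq_one, Finset.card_sdiff_of_subset h]
    omega
  have hyσ : y ∈ σ := (Finset.mem_sdiff.1 (hy ▸ Finset.mem_singleton_self y : y ∈ σ \ f)).1
  have hyf : y ∉ f := (Finset.mem_sdiff.1 (hy ▸ Finset.mem_singleton_self y : y ∈ σ \ f)).2
  have he : σ.erase y = f := by
    ext x
    rw [Finset.mem_erase]
    constructor
    · rintro ⟨h1, h2⟩
      by_contra h3
      have : x ∈ σ \ f := Finset.mem_sdiff.2 ⟨h2, h3⟩
      rw [hy, Finset.mem_singleton] at this
      exact h1 this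
    · intro hx
      exact ⟨fun h1 => hyf (h1 ▸ hx), h hx⟩
  unfold bd
  rw [Finset.sum_eq_single y]
  · rw [if_pos he]
    exact pow_ne_zero _ (by norm_num)
  · intro z hz hzy
    rw [if_neg]
    intro h1
    have : y ∈ σ.erase z := Finset.mem_erase.2 ⟨Ne.symm hzy, hyσ⟩
    rw [h1] at this
    exact hyf this
  · intro h1
    exact absurd hyσ h1

/-- the sign of `y` in `σ` -/
def sg (σ : Finset (Fin n)) (y : Fin n) : ℚ := (-1 : ℚ) ^ (σ.filter (· < y)).card

theorem sg_sq (σ : Finset (Fin n)) (y : Fin n) : sg σ y * sg σ y = 1 := by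
  unfold sg
  rw [← pow_add, ← two_mul, pow_mul]
  norm_num

theorem sg_erase_lt {σ : Finset (Fin n)} {y z : Fin n} (hy : y ∈ σ) (hyz : y < z) :
    sg (σ.erase y) z = - sg σ z := by
  unfold sg
  have h1 : (σ.erase y).filter (· < z) = (σ.filter (· < z)).erase y := by
    ext x
    simp only [Finset.mem_filter, Finset.mem_erase]
    tauto
  have h2 : y ∈ σ.filter (· < z) := Finset.mem_filter.2 ⟨hy, hyz⟩
  have h3 := Finset.card_erase_add_one h2
  rw [h1, ← h3, pow_succ]
  ring

theorem sg_erase_gt {σ : Finset (Fin n)} {y z : Fin n} (hyz : z < y) :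
    sg (σ.erase y) z = sg σ z := by
  unfold sg
  have h1 : (σ.erase y).filter (· < z) = σ.filter (· < z) := by
    ext x
    simp only [Finset.mem_filter, Finset.mem_erase]
    constructor
    · rintro ⟨⟨_, h⟩, h'⟩
      exact ⟨h, h'⟩
    · rintro ⟨h, h'⟩
      refine ⟨⟨?_, h⟩, h'⟩
      rintro rfl
      exact absurd h' (not_lt.2 hyz.le)
  rw [h1]

theorem sg_antisymm {σ : Finset (Fin n)} {y z : Fin n} (hy : y ∈ σ) (hz : z ∈ σ) (hyz : y ≠ z) :
    sg σ y * sg (σ.erase y) z = - (sg σ z * sg (σ.erase z) y) := by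
  rcases lt_or_gt_of_ne hyz with h | h
  · rw [sg_erase_lt hy h, sg_erase_gt h]
    ring
  · rw [sg_erase_gt h, sg_erase_lt hz h]
    ring

/-- the boundary of the boundary is zero -/
theorem bd_bd (ρ : Finset (Fin n)) : ∑ y ∈ ρ, sg ρ y • (bd (ρ.erase y)) = 0 := by
  funext g
  rw [Finset.sum_apply]
  simp only [Pi.smul_apply, smul_eq_mul, Pi.zero_apply]
  have h1 : ∀ y ∈ ρ, sg ρ y * bd (ρ.erase y) g =
      ∑ z ∈ ρ.erase y, if (ρ.erase y).erase z = g then sg ρ y * sg (ρ.erase y) z else 0 := by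
    intro y _
    unfold bd
    rw [Finset.mul_sum]
    refine Finset.sum_congr rfl fun z _ => ?_
    split_ifs
    · rfl
    · ring
  rw [Finset.sum_congr rfl h1, Finset.sum_sigma']
  refine Finset.sum_involution (fun p _ => ⟨p.2, p.1⟩) ?_ ?_ ?_ ?_
  · rintro ⟨y, z⟩ h
    simp only [Finset.mem_sigma, Finset.mem_erase] at h
    obtain ⟨hy, hzy, hz⟩ := h
    simp only
    have h2 : (ρ.erase z).erase y = (ρ.erase y).erase z := Finset.erase_right_comm
    rw [h2]
    split_ifs
    · rw [sg_antisymm hy hz (Ne.symm hzy)]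
      ring
    · ring
  · rintro ⟨y, z⟩ h _
    simp only [Finset.mem_sigma, Finset.mem_erase] at h
    obtain ⟨hy, hzy, hz⟩ := h
    intro h3
    simp only [Sigma.mk.injEq] at h3
    exact hzy h3.1
  · rintro ⟨y, z⟩ h
    simp only [Finset.mem_sigma, Finset.mem_erase] at h ⊢
    exact ⟨h.2.2, Ne.symm h.2.1, h.1⟩
  · rintro ⟨y, z⟩ _
    rfl

/-- every boundary is a combination of the boundaries of the faces containing `v` -/
theorem bd_mem_span (v : Fin n) (d : ℕ) (σ : Finset (Fin n)) (hσ : σ.card = d + 1) :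
    bd σ ∈ Submodule.span ℚ (bd '' {ρ | v ∈ ρ ∧ ρ.card = d + 1}) := by
  by_cases hv : v ∈ σ
  · exact Submodule.subset_span ⟨σ, ⟨hv, hσ⟩, rfl⟩
  · have h1 := bd_bd (insert v σ)
    rw [Finset.sum_insert hv, Finset.erase_insert hv] at h1
    have h2 : bd σ = - (sg (insert v σ) v • ∑ y ∈ σ, sg (insert v σ) y • bd ((insert v σ).erase y)) := by
      have h3 : sg (insert v σ) v • bd σ =
          - ∑ y ∈ σ, sg (insert v σ) y • bd ((insert v σ).erase y) := eq_neg_of_add_eq_zero_left h1
      have h4 : bd σ = sg (insert v σ) v • (sg (insert v σ) v • bd σ) := by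
        rw [smul_smul, sg_sq, one_smul]
      rw [h4, h3, smul_neg]
    rw [h2]
    refine Submodule.neg_mem _ (Submodule.smul_mem _ _ (Submodule.sum_mem _ fun y hy => ?_))
    refine Submodule.smul_mem _ _ (Submodule.subset_span ⟨_, ⟨?_, ?_⟩, rfl⟩)
    · exact Finset.mem_erase.2 ⟨fun h => hv (h ▸ hy), Finset.mem_insert_self _ _⟩
    · rw [Finset.card_erase_of_mem (Finset.mem_insert_of_mem hy), Finset.card_insert_of_notMem hv, hσ]
      rfl

/-- the number of the faces with `d + 1` vertices containing `v` -/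
theorem card_star (v : Fin n) (d : ℕ) :
    (Finset.univ.filter fun ρ : Finset (Fin n) => v ∈ ρ ∧ ρ.card = d + 1).card =
      (n - 1).choose d := by
  have h1 : (Finset.univ.filter fun ρ : Finset (Fin n) => v ∈ ρ ∧ ρ.card = d + 1) =
      ((Finset.univ.erase v).powersetCard d).image (insert v) := by
    ext ρ
    simp only [Finset.mem_filter, Finset.mem_univ, true_and, Finset.mem_image,
      Finset.mem_powersetCard]
    constructor
    · rintro ⟨hv, hc⟩
      refine ⟨ρ.erase v, ⟨fun x hx => Finset.mem_erase.2 ⟨(Finset.mem_erase.1 hx).1, Finset.mem_univ _⟩,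
        ?_⟩, Finset.insert_erase hv⟩
      rw [Finset.card_erase_of_mem hv, hc]
      rfl
    · rintro ⟨s, ⟨hs, hc⟩, rfl⟩
      have hv : v ∉ s := fun h => (Finset.mem_erase.1 (hs h)).1 rfl
      exact ⟨Finset.mem_insert_self _ _, by rw [Finset.card_insert_of_notMem hv, hc]⟩
  rw [h1, Finset.card_image_of_injOn, Finset.card_powersetCard, Finset.card_erase_of_mem
    (Finset.mem_univ _), Finset.card_univ, Fintype.card_fin]
  intro s hs t ht hst
  rw [Finset.mem_coe, Finset.mem_powersetCard] at hs ht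
  have hvs : v ∉ s := fun h => (Finset.mem_erase.1 (hs.1 h)).1 rfl
  have hvt : v ∉ t := fun h => (Finset.mem_erase.1 (ht.1 h)).1 rfl
  have := congrArg (fun u => Finset.erase u v) hst
  simpa [Finset.erase_insert hvs, Finset.erase_insert hvt] using this

/-- the rank: independent sets of `d`-faces have at most `binom(n - 1, d)` elements -/
theorem card_le_of_indep (hn : 0 < n) (d : ℕ) (A : Finset (Finset (Fin n)))
    (hA : ∀ σ ∈ A, σ.card = d + 1) (h : LinearIndepOn ℚ bd (A : Set (Finset (Fin n)))) :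
    A.card ≤ (n - 1).choose d := by
  classical
  let v : Fin n := ⟨0, hn⟩
  set S := (Finset.univ.filter fun ρ : Finset (Fin n) => v ∈ ρ ∧ ρ.card = d + 1).image bd with hS
  have h1 : S.card ≤ (n - 1).choose d := by
    rw [← card_star v d]
    exact Finset.card_image_le
  have h2 : ∀ σ ∈ A, bd σ ∈ Submodule.span ℚ (S : Set (Finset (Fin n) → ℚ)) := by
    intro σ hσ
    have h3 := bd_mem_span v d σ (hA σ hσ)
    have h4 : (S : Set (Finset (Fin n) → ℚ)) = bd '' {ρ | v ∈ ρ ∧ ρ.card = d + 1} := by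
      rw [hS, Finset.coe_image]
      congr 1
      ext ρ
      simp
    rw [h4]
    exact h3
  let w : A → Submodule.span ℚ (S : Set (Finset (Fin n) → ℚ)) := fun σ => ⟨bd σ.1, h2 σ.1 σ.2⟩
  have h5 : LinearIndependent ℚ w := by
    have h6 : LinearIndependent ℚ fun σ : A => bd σ.1 := h
    exact LinearIndependent.of_comp (Submodule.span ℚ (S : Set (Finset (Fin n) → ℚ))).subtype h6
  have h7 := h5.fintype_card_le_finrank
  have h8 : Module.finrank ℚ (Submodule.span ℚ (S : Set (Finset (Fin n) → ℚ))) ≤ S.card :=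
    finrank_span_finset_le_card S
  rw [Fintype.card_coe] at h7
  omega

/-- collapsible sets are independent -/
theorem Collapsible.indep {T : Finset (Finset (Fin n))} (h : Collapsible T) :
    LinearIndepOn ℚ bd (T : Set (Finset (Fin n))) := by
  classical
  induction h with
  | empty => simp
  | step T σ f hσ hf hcard hfree _ ih =>
    rw [linearIndepOn_finset_iff] at ih ⊢
    intro g hg
    have h1 : g σ = 0 := by
      have h2 := congrFun hg f
      rw [Finset.sum_apply] at h2
      simp only [Pi.smul_apply, smul_eq_mul, Pi.zero_apply] at h2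
      rw [Finset.sum_eq_single σ] at h2
      · exact (mul_eq_zero.1 h2).resolve_right (bd_ne_zero hf hcard)
      · intro τ hτ hne
        rw [bd_eq_zero fun h3 => hne (hfree τ hτ h3), mul_zero]
      · intro h3
        exact absurd hσ h3
    have h3 : ∑ τ ∈ T.erase σ, g τ • bd τ = 0 := by
      rw [← Finset.add_sum_erase T (fun τ => g τ • bd τ) hσ, h1, zero_smul, zero_add] at hg
      exact hg
    intro τ hτ
    by_cases h4 : τ = σ
    · rw [h4, h1]
    · exact ih g h3 τ (Finset.mem_erase.2 ⟨h4, hτ⟩)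

/-- two hypertrees which differ in one face form an exchange -/
theorem exchange_of (hn : 0 < n) {d : ℕ} {T : Finset (Finset (Fin n))} {σ τ : Finset (Fin n)}
    (hT : Hypertree d T) (hσ : σ ∉ T) (hc : σ.card = d + 1)
    (hT' : Hypertree d ((insert σ T).erase τ)) : Exchange d T ((insert σ T).erase τ) := by
  classical
  have hdep : ¬ LinearIndepOn ℚ bd ((insert σ T : Finset (Finset (Fin n))) : Set (Finset (Fin n))) := by
    intro h
    have h1 := card_le_of_indep hn d (insert σ T) (by
      intro ρ hρ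
      rcases Finset.mem_insert.1 hρ with rfl | hρ
      · exact hc
      · exact hT.1 ρ hρ) h
    rw [Finset.card_insert_of_notMem hσ, hT.2.2] at h1
    omega
  -- a dependent subset of minimal cardinality
  have hex : ∃ k, ∃ C ⊆ insert σ T, ¬ LinearIndepOn ℚ bd (C : Set (Finset (Fin n))) ∧ C.card = k :=
    ⟨_, _, Finset.Subset.refl _, hdep, rfl⟩
  obtain ⟨C, hC, hCdep, hCk⟩ := Nat.find_spec hex
  have hmin : ∀ D ⊂ C, LinearIndepOn ℚ bd (D : Set (Finset (Fin n))) := by
    intro D hD
    by_contra h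
    exact Nat.find_min hex (m := D.card) (by rw [← hCk]; exact Finset.card_lt_card hD)
      ⟨D, hD.1.trans hC, h, rfl⟩
  refine ⟨σ, τ, C, hc, hσ, hC, ⟨hCdep, hmin⟩, ?_, ?_, rfl⟩
  · by_contra h
    refine hCdep (hT.2.1.mono ?_)
    intro ρ hρ
    have hρ' : ρ ∈ C := hρ
    rcases Finset.mem_insert.1 (hC hρ') with h1 | h1
    · exact absurd (h1 ▸ hρ') h
    · exact h1
  · by_contra h
    refine hCdep (hT'.2.1.mono ?_)
    intro ρ hρ
    have hρ' : ρ ∈ C := hρ
    exact Finset.mem_erase.2 ⟨fun h1 => h (h1 ▸ hρ'), hC hρ'⟩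

end Pool.Agent.Q158.HT
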