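import Mathlib

/-! # Hypertrees, collapses and exchanges: definitions -/

set_option autoImplicit false

namespace Pool.Agent.Q158.HT

variable {n : ℕ}

/-- The boundary of the face `σ` of the full simplex with the vertices `0, …, n - 1`, as a rational
combination of the faces: the face `σ ∖ {y}` has the coefficient `(-1) ^ i`, where `i` is the number
of the vertices of `σ` smaller than `y`. -/
def bd (σ f : Finset (Fin n)) : ℚ :=
  ∑ y ∈ σ, if σ.erase y = f then (-1 : ℚ) ^ (σ.filter (· < y)).card else 0

/-- `T` is a `d`-hypertree: a set of `binom(n - 1, d)` faces of dimension `d` (so with `d + 1`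
vertices) with linearly independent boundaries. -/
def Hypertree (d : ℕ) (T : Finset (Finset (Fin n))) : Prop :=
  (∀ σ ∈ T, σ.card = d + 1) ∧ LinearIndepOn ℚ bd (T : Set (Finset (Fin n))) ∧
    T.card = (n - 1).choose d

/-- `T` can be collapsed: the faces of `T` can be deleted one after the other, where in each step
the deleted face `σ` has a facet `f` which is in no other face of the current set. -/
inductive Collapsible : Finset (Finset (Fin n)) → Prop
  | empty : Collapsible ∅
  | step (T : Finset (Finset (Fin n))) (σ f : Finset (Fin n)) (hσ : σ ∈ T) (hf : f ⊆ σ)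
      (hcard : f.card + 1 = σ.card) (hfree : ∀ τ ∈ T, f ⊆ τ → τ = σ)
      (h : Collapsible (T.erase σ)) : Collapsible T

/-- The complex with the `d`-faces `T` and the `(d - 1)`-faces `X` collapses to the
`(d - 1)`-faces `R`: in each step a face `σ` of `T` is deleted together with a facet `f` of `X`
which is in no other face of the current set. -/
inductive CollapsesTo (R : Finset (Finset (Fin n))) :
    Finset (Finset (Fin n)) → Finset (Finset (Fin n)) → Prop
  | done : CollapsesTo R R ∅
  | step (X T : Finset (Finset (Fin n))) (σ f : Finset (Fin n)) (hσ : σ ∈ T) (hfX : f ∈ X)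
      (hf : f ⊆ σ) (hcard : f.card + 1 = σ.card) (hfree : ∀ τ ∈ T, f ⊆ τ → τ = σ)
      (h : CollapsesTo R (X.erase f) (T.erase σ)) : CollapsesTo R X T

/-- A cycle: a minimal set of faces with linearly dependent boundaries. -/
def IsCycle (C : Finset (Finset (Fin n))) : Prop :=
  ¬ LinearIndepOn ℚ bd (C : Set (Finset (Fin n))) ∧
    ∀ D ⊂ C, LinearIndepOn ℚ bd (D : Set (Finset (Fin n)))

/-- One exchange: `T' = T ∪ {σ} ∖ {τ}`, where `σ` is a `d`-face not in `T` and `τ` a face of a cycle
`C` of `T ∪ {σ}`, `σ ∈ C`. -/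
def Exchange (d : ℕ) (T T' : Finset (Finset (Fin n))) : Prop :=
  ∃ (σ τ : Finset (Fin n)) (C : Finset (Finset (Fin n))), σ.card = d + 1 ∧ σ ∉ T ∧
    C ⊆ insert σ T ∧ IsCycle C ∧ σ ∈ C ∧ τ ∈ C ∧ T' = (insert σ T).erase τ

/-- `T` and `T'` are joined by `m` exchanges through collapsible `d`-hypertrees. -/
def Joined (d m : ℕ) (T T' : Finset (Finset (Fin n))) : Prop :=
  ∃ p : ℕ → Finset (Finset (Fin n)), p 0 = T ∧ p m = T' ∧
    (∀ i ≤ m, Hypertree d (p i) ∧ Collapsible (p i)) ∧ ∀ i < m, Exchange d (p i) (p (i + 1))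

end Pool.Agent.Q158.HT
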