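import Pool.Agent.Q158.HT.Basic

/-! # Choice functions

A collapse of a hypertree `T` to the remainder `R` is a choice function `c` from the `d`-sets not in
`R` onto `T` with a rank function `ρ`. -/

set_option autoImplicit false

namespace Pool.Agent.Q158.HT

open Finset

variable {n : ℕ}

/-- the `d`-sets not in `R` -/
def U (d : ℕ) (R : Finset (Finset (Fin n))) : Finset (Finset (Fin n)) :=
  Finset.univ.filter fun f => f.card = d ∧ f ∉ R

theorem mem_U {d : ℕ} {R : Finset (Finset (Fin n))} {f : Finset (Fin n)} :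
    f ∈ U d R ↔ f.card = d ∧ f ∉ R := by
  simp [U]

/-- `c` chooses for each `d`-set `f` not in `R` a `(d+1)`-set containing it, all the other facets of
which are in `R` or have a smaller rank -/
def Good (d : ℕ) (R : Finset (Finset (Fin n))) (c : Finset (Fin n) → Finset (Fin n))
    (ρ : Finset (Fin n) → ℕ) : Prop :=
  ∀ f ∈ U d R, (c f).card = d + 1 ∧ f ⊆ c f ∧
    ∀ g, g ⊆ c f → g.card = d → g ≠ f → g ∈ R ∨ ρ g < ρ f

theorem Good.lt {d : ℕ} {R : Finset (Finset (Fin n))} {c : Finset (Fin n) → Finset (Fin n)}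
    {ρ : Finset (Fin n) → ℕ} (h : Good d R c ρ) {f g : Finset (Fin n)} (hf : f ∈ U d R)
    (hg : g ∈ U d R) (hgf : g ⊆ c f) (hne : g ≠ f) : ρ g < ρ f :=
  ((h f hf).2.2 g hgf (mem_U.1 hg).1 hne).resolve_left (mem_U.1 hg).2

theorem Good.injOn {d : ℕ} {R : Finset (Finset (Fin n))} {c : Finset (Fin n) → Finset (Fin n)}
    {ρ : Finset (Fin n) → ℕ} (h : Good d R c ρ) : Set.InjOn c (U d R) := by
  intro f hf g hg hfg
  by_contra hne
  have h1 := h.lt hf hg (hfg ▸ (h g hg).2.1) (Ne.symm hne)
  have h2 := h.lt hg hf (hfg ▸ (h f hf).2.1) hne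
  omega

theorem Good.collapsible_image {d : ℕ} {R : Finset (Finset (Fin n))}
    {c : Finset (Fin n) → Finset (Fin n)} {ρ : Finset (Fin n) → ℕ} (h : Good d R c ρ) :
    ∀ (k : ℕ) (D : Finset (Finset (Fin n))), D ⊆ U d R → D.card = k → Collapsible (D.image c) := by
  intro k
  induction k with
  | zero =>
    intro D _ hk
    rw [Finset.card_eq_zero.1 hk, Finset.image_empty]
    exact Collapsible.empty
  | succ k ih =>
    intro D hD hk
    have hne : D.Nonempty := Finset.card_pos.1 (by omega)
    obtain ⟨f, hf, hmax⟩ := Finset.exists_max_image D ρ hne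
    have hfU := hD hf
    refine Collapsible.step _ (c f) f (Finset.mem_image_of_mem c hf) (h f hfU).2.1
      (by rw [(h f hfU).1, (mem_U.1 hfU).1]) ?_ ?_
    · intro τ hτ hfτ
      obtain ⟨g, hg, rfl⟩ := Finset.mem_image.1 hτ
      by_contra hne
      have h1 : f ≠ g := fun h2 => hne (by rw [h2])
      have h2 := h.lt (hD hg) hfU hfτ h1
      have h3 := hmax g hg
      omega
    · have h1 : (D.image c).erase (c f) = (D.erase f).image c := by
        ext τ
        rw [Finset.mem_erase, Finset.mem_image, Finset.mem_image]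
        constructor
        · rintro ⟨h1, g, hg, rfl⟩
          exact ⟨g, Finset.mem_erase.2 ⟨fun h2 => h1 (by rw [h2]), hg⟩, rfl⟩
        · rintro ⟨g, hg, rfl⟩
          obtain ⟨h1, h2⟩ := Finset.mem_erase.1 hg
          exact ⟨fun h3 => h1 (h.injOn (hD h2) hfU h3), g, h2, rfl⟩
      rw [h1]
      exact ih _ ((Finset.erase_subset _ _).trans hD) (by rw [Finset.card_erase_of_mem hf]; omega)

theorem Good.collapsible {d : ℕ} {R : Finset (Finset (Fin n))}
    {c : Finset (Fin n) → Finset (Fin n)} {ρ : Finset (Fin n) → ℕ} (h : Good d R c ρ) :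
    Collapsible ((U d R).image c) :=
  h.collapsible_image _ _ (Finset.Subset.refl _) rfl

theorem Good.card {d : ℕ} {R : Finset (Finset (Fin n))}
    {c : Finset (Fin n) → Finset (Fin n)} {ρ : Finset (Fin n) → ℕ} (h : Good d R c ρ) :
    ((U d R).image c).card = (U d R).card :=
  Finset.card_image_of_injOn h.injOn

theorem Good.hypertree {d : ℕ} {R : Finset (Finset (Fin n))}
    {c : Finset (Fin n) → Finset (Fin n)} {ρ : Finset (Fin n) → ℕ} (h : Good d R c ρ)
    (hU : (U d R).card = (n - 1).choose d) : Hypertree d ((U d R).image c) := by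
  refine ⟨?_, h.collapsible.indep, by rw [h.card, hU]⟩
  intro σ hσ
  obtain ⟨f, hf, rfl⟩ := Finset.mem_image.1 hσ
  exact (h f hf).1

/-- a collapse to `R` is a choice function -/
theorem CollapsesTo.good_aux {d : ℕ} {R : Finset (Finset (Fin n))} {X T : Finset (Finset (Fin n))}
    (h : CollapsesTo R X T) : (∀ f ∈ X, f.card = d) → (∀ σ ∈ T, σ.card = d + 1) →
    (∀ σ ∈ T, ∀ g ⊆ σ, g.card = d → g ∈ X) →
    R ⊆ X ∧ ∃ (c : Finset (Fin n) → Finset (Fin n)) (ρ : Finset (Fin n) → ℕ),
      (∀ f ∈ X \ R, (c f).card = d + 1 ∧ f ⊆ c f ∧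
        ∀ g, g ⊆ c f → g.card = d → g ≠ f → g ∈ R ∨ ρ g < ρ f) ∧ T = (X \ R).image c := by
  classical
  induction h with
  | done =>
    intro _ _ _
    exact ⟨Finset.Subset.refl _, id, fun _ => 0, by simp, by simp⟩
  | step X T σ f hσ hfX hf hcard hfree _ ih =>
    intro hX hT hTX
    obtain ⟨hR, c, ρ, hc, hTc⟩ := ih (fun g hg => hX g (Finset.mem_of_mem_erase hg))
      (fun τ hτ => hT τ (Finset.mem_of_mem_erase hτ)) (by
        intro τ hτ g hg hgd
        refine Finset.mem_erase.2 ⟨?_, hTX τ (Finset.mem_of_mem_erase hτ) g hg hgd⟩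
        rintro rfl
        exact (Finset.mem_erase.1 hτ).1 (hfree τ (Finset.mem_of_mem_erase hτ) hg))
    have hfR : f ∉ R := fun h1 => (Finset.mem_erase.1 (hR h1)).1 rfl
    obtain ⟨N, hN⟩ : ∃ N, ∀ g : Finset (Fin n), ρ g < N :=
      ⟨(Finset.univ.sup ρ) + 1, fun g => Nat.lt_succ_of_le (Finset.le_sup (Finset.mem_univ g))⟩
    have hXR : X \ R = insert f (X.erase f \ R) := by
      ext g
      simp only [Finset.mem_sdiff, Finset.mem_insert, Finset.mem_erase]
      constructor
      · rintro ⟨h1, h2⟩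
        by_cases h3 : g = f
        · exact Or.inl h3
        · exact Or.inr ⟨⟨h3, h1⟩, h2⟩
      · rintro (rfl | ⟨⟨h1, h2⟩, h3⟩)
        · exact ⟨hfX, hfR⟩
        · exact ⟨h2, h3⟩
    refine ⟨fun g hg => Finset.mem_of_mem_erase (hR hg), fun g => if g = f then σ else c g,
      fun g => if g = f then N else ρ g, ?_, ?_⟩
    · intro g hg
      by_cases hgf : g = f
      · subst hgf
        simp only [if_true]
        refine ⟨hT σ hσ, hf, ?_⟩
        intro h _ _ hne
        right
        rw [if_neg hne]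
        exact hN h
      · have hg' : g ∈ X.erase f \ R := by
          rw [hXR] at hg
          exact (Finset.mem_insert.1 hg).resolve_left hgf
        simp only [if_neg hgf]
        obtain ⟨h1, h2, h3⟩ := hc g hg'
        refine ⟨h1, h2, ?_⟩
        intro h hh hhd hne
        have hcT : c g ∈ T.erase σ := by
          rw [hTc]
          exact Finset.mem_image_of_mem c hg'
        have hhf : h ≠ f := by
          rintro rfl
          exact (Finset.mem_erase.1 hcT).1 (hfree _ (Finset.mem_of_mem_erase hcT) hh)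
        rw [if_neg hhf]
        exact h3 h hh hhd hne
    · rw [hXR, Finset.image_insert]
      simp only [if_true]
      have h1 : (X.erase f \ R).image (fun g => if g = f then σ else c g) =
          (X.erase f \ R).image c := by
        refine Finset.image_congr ?_
        intro g hg
        have : g ≠ f := (Finset.mem_erase.1 (Finset.mem_sdiff.1 hg).1).1
        simp only [if_neg this]
      rw [h1, ← hTc, Finset.insert_erase hσ]

/-- all the `d`-sets -/
def allFaces (n d : ℕ) : Finset (Finset (Fin n)) := Finset.univ.filter fun f => f.card = d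

theorem CollapsesTo.good {d : ℕ} {R T : Finset (Finset (Fin n))}
    (h : CollapsesTo R (allFaces n d) T) (hT : ∀ σ ∈ T, σ.card = d + 1) :
    ∃ (c : Finset (Fin n) → Finset (Fin n)) (ρ : Finset (Fin n) → ℕ),
      Good d R c ρ ∧ T = (U d R).image c := by
  classical
  obtain ⟨-, c, ρ, h1, h2⟩ := h.good_aux (d := d) (by intro f hf; simpa [allFaces] using hf) hT
    (by intro σ _ g _ hg; simpa [allFaces] using hg)
  have h3 : allFaces n d \ R = U d R := by
    ext f
    simp [allFaces, U]
  rw [h3] at h1 h2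
  exact ⟨c, ρ, h1, h2⟩

/-- every collapsible set collapses to some remainder -/
theorem Collapsible.collapsesTo {d : ℕ} {T : Finset (Finset (Fin n))} (h : Collapsible T) :
    (∀ σ ∈ T, σ.card = d + 1) → ∀ X : Finset (Finset (Fin n)),
      (∀ σ ∈ T, ∀ g ⊆ σ, g.card = d → g ∈ X) → ∃ R, CollapsesTo R X T := by
  classical
  induction h with
  | empty => exact fun _ X _ => ⟨X, CollapsesTo.done⟩
  | step T σ f hσ hf hcard hfree _ ih =>
    intro hT X hX
    have hfd : f.card = d := by
      have := hT σ hσ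
      omega
    obtain ⟨R, hR⟩ := ih (fun τ hτ => hT τ (Finset.mem_of_mem_erase hτ)) (X.erase f) (by
      intro τ hτ g hg hgd
      refine Finset.mem_erase.2 ⟨?_, hX τ (Finset.mem_of_mem_erase hτ) g hg hgd⟩
      rintro rfl
      exact (Finset.mem_erase.1 hτ).1 (hfree τ (Finset.mem_of_mem_erase hτ) hg))
    exact ⟨R, CollapsesTo.step X T σ f hσ (hX σ hσ f hf hfd) hf hcard hfree hR⟩

theorem Collapsible.good {d : ℕ} {T : Finset (Finset (Fin n))} (h : Collapsible T)
    (hT : ∀ σ ∈ T, σ.card = d + 1) :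
    ∃ (R : Finset (Finset (Fin n))) (c : Finset (Fin n) → Finset (Fin n))
      (ρ : Finset (Fin n) → ℕ), Good d R c ρ ∧ T = (U d R).image c := by
  obtain ⟨R, hR⟩ := h.collapsesTo hT (allFaces n d) (by
    intro σ _ g _ hg
    simpa [allFaces] using hg)
  obtain ⟨c, ρ, h1, h2⟩ := hR.good hT
  exact ⟨R, c, ρ, h1, h2⟩

end Pool.Agent.Q158.HT
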