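import Pool.Agent.Q158.HT.Good

/-! # Two hypertrees with a common remainder are joined by exchanges -/

set_option autoImplicit false

namespace Pool.Agent.Q158.HT

open Finset

variable {n : ℕ}

theorem Joined.refl {d : ℕ} {T : Finset (Finset (Fin n))} (h : Hypertree d T)
    (h' : Collapsible T) : Joined d 0 T T :=
  ⟨fun _ => T, rfl, rfl, fun _ _ => ⟨h, h'⟩, fun i hi => absurd hi (by omega)⟩

theorem Joined.snoc {d m : ℕ} {T T' T'' : Finset (Finset (Fin n))} (h : Joined d m T T')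
    (h1 : Hypertree d T'') (h2 : Collapsible T'') (h3 : Exchange d T' T'') :
    Joined d (m + 1) T T'' := by
  obtain ⟨p, hp0, hpm, hp1, hp2⟩ := h
  refine ⟨fun i => if i ≤ m then p i else T'', ?_, ?_, ?_, ?_⟩
  · simp [hp0]
  · simp
  · intro i hi
    by_cases h4 : i ≤ m
    · simp only [if_pos h4]
      exact hp1 i h4
    · simp only [if_neg h4]
      exact ⟨h1, h2⟩
  · intro i hi
    by_cases h4 : i < m
    · simp only [if_pos h4.le, if_pos (show i + 1 ≤ m from h4)]
      exact hp2 i h4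
    · have h5 : i = m := by omega
      subst h5
      simp only [le_refl, if_true, if_neg (show ¬ i + 1 ≤ i by omega), hpm]
      exact h3

theorem Joined.trans {d m : ℕ} {T T' : Finset (Finset (Fin n))} (h : Joined d m T T') :
    ∀ (k : ℕ) (T'' : Finset (Finset (Fin n))), Joined d k T' T'' → Joined d (m + k) T T'' := by
  intro k
  induction k with
  | zero =>
    intro T'' h2
    obtain ⟨p, hp0, hpm, -, -⟩ := h2
    rw [← hpm, hp0]
    exact h
  | succ k ih =>
    intro T'' h2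
    obtain ⟨p, hp0, hpm, hp1, hp2⟩ := h2
    have h3 : Joined d k T' (p k) := ⟨p, hp0, rfl, fun i hi => hp1 i (by omega),
      fun i hi => hp2 i (by omega)⟩
    have h4 := (ih (p k) h3).snoc (hp1 (k + 1) le_rfl).1 (hp1 (k + 1) le_rfl).2 (hp2 k (by omega))
    rw [hpm] at h4
    exact h4

/-- the hybrid of two choice functions -/
def hyb (D : Finset (Finset (Fin n))) (c₁ c₂ : Finset (Fin n) → Finset (Fin n)) :
    Finset (Fin n) → Finset (Fin n) := fun f => if f ∈ D then c₂ f else c₁ f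

theorem hyb_good {d : ℕ} {R : Finset (Finset (Fin n))}
    {c₁ c₂ : Finset (Fin n) → Finset (Fin n)} {ρ₁ ρ₂ : Finset (Fin n) → ℕ} (h₁ : Good d R c₁ ρ₁)
    (h₂ : Good d R c₂ ρ₂) (D : Finset (Finset (Fin n)))
    (hcl : ∀ f ∈ D, ∀ g ⊆ c₂ f, g.card = d → g ≠ f → g ∈ R ∨ g ∈ D) :
    ∃ ρ, Good d R (hyb D c₁ c₂) ρ := by
  obtain ⟨N, hN⟩ : ∃ N, ∀ g : Finset (Fin n), ρ₂ g < N :=
    ⟨(Finset.univ.sup ρ₂) + 1, fun g => Nat.lt_succ_of_le (Finset.le_sup (Finset.mem_univ g))⟩
  refine ⟨fun f => if f ∈ D then ρ₂ f else N + ρ₁ f, ?_⟩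
  intro f hf
  by_cases hfD : f ∈ D
  · simp only [hyb, if_pos hfD]
    obtain ⟨h3, h4, h5⟩ := h₂ f hf
    refine ⟨h3, h4, fun g hg hgd hne => ?_⟩
    rcases hcl f hfD g hg hgd hne with h6 | h6
    · exact Or.inl h6
    · rw [if_pos h6]
      exact h5 g hg hgd hne
  · simp only [hyb, if_neg hfD]
    obtain ⟨h3, h4, h5⟩ := h₁ f hf
    refine ⟨h3, h4, fun g hg hgd hne => ?_⟩
    rcases h5 g hg hgd hne with h6 | h6
    · exact Or.inl h6
    · right
      by_cases hgD : g ∈ D
      · rw [if_pos hgD]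
        have := hN g
        omega
      · rw [if_neg hgD]
        omega

theorem path_aux (hn : 0 < n) {d : ℕ} {R : Finset (Finset (Fin n))}
    {c₁ c₂ : Finset (Fin n) → Finset (Fin n)} {ρ₁ ρ₂ : Finset (Fin n) → ℕ} (h₁ : Good d R c₁ ρ₁)
    (h₂ : Good d R c₂ ρ₂) (hU : (U d R).card = (n - 1).choose d) :
    ∀ (k : ℕ) (D : Finset (Finset (Fin n))), D.card = k → D ⊆ U d R →
      (∀ f ∈ D, ∀ g ⊆ c₂ f, g.card = d → g ≠ f → g ∈ R ∨ g ∈ D) →
      ∃ m ≤ k, Joined d m ((U d R).image c₁) ((U d R).image (hyb D c₁ c₂)) := by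
  classical
  intro k
  induction k with
  | zero =>
    intro D hk _ _
    rw [Finset.card_eq_zero.1 hk]
    have h3 : hyb ∅ c₁ c₂ = c₁ := by
      funext f
      simp [hyb]
    rw [h3]
    exact ⟨0, le_rfl, Joined.refl (h₁.hypertree hU) h₁.collapsible⟩
  | succ k ih =>
    intro D hk hD hcl
    have hne : D.Nonempty := Finset.card_pos.1 (by omega)
    obtain ⟨f, hf, hmax⟩ := Finset.exists_max_image D ρ₂ hne
    have hfU := hD hf
    have hcl' : ∀ h ∈ D.erase f, ∀ g ⊆ c₂ h, g.card = d → g ≠ h → g ∈ R ∨ g ∈ D.erase f := by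
      intro h hh g hg hgd hne
      have hhD := Finset.mem_of_mem_erase hh
      rcases hcl h hhD g hg hgd hne with h3 | h3
      · exact Or.inl h3
      · right
        refine Finset.mem_erase.2 ⟨?_, h3⟩
        rintro rfl
        have h4 := h₂.lt (hD hhD) hfU hg hne
        have h5 := hmax h hhD
        omega
    obtain ⟨m, hm, hj⟩ := ih (D.erase f) (by rw [Finset.card_erase_of_mem hf]; omega)
      ((Finset.erase_subset _ _).trans hD) hcl'
    obtain ⟨ρ, hρ⟩ := hyb_good h₁ h₂ D hcl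
    obtain ⟨ρ', hρ'⟩ := hyb_good h₁ h₂ (D.erase f) hcl'
    have hD1 : hyb D c₁ c₂ f = c₂ f := by simp [hyb, hf]
    have hD2 : hyb (D.erase f) c₁ c₂ f = c₁ f := by simp [hyb]
    have hD3 : ∀ g, g ≠ f → hyb D c₁ c₂ g = hyb (D.erase f) c₁ c₂ g := by
      intro g hg
      simp [hyb, hg]
    by_cases heq : c₁ f = c₂ f
    · refine ⟨m, by omega, ?_⟩
      have h3 : hyb D c₁ c₂ = hyb (D.erase f) c₁ c₂ := by
        funext g
        by_cases hg : g = f
        · rw [hg, hD1, hD2, heq]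
        · exact hD3 g hg
      rw [h3]
      exact hj
    · refine ⟨m + 1, by omega, ?_⟩
      have hσ : c₂ f ∉ (U d R).image (hyb (D.erase f) c₁ c₂) := by
        intro h3
        obtain ⟨g, hg, hgf⟩ := Finset.mem_image.1 h3
        by_cases h4 : g = f
        · rw [h4, hD2] at hgf
          exact heq hgf
        · rw [← hD3 g h4, ← hD1] at hgf
          exact h4 (hρ.injOn hg hfU hgf)
      have himg : (U d R).image (hyb D c₁ c₂) =
          (insert (c₂ f) ((U d R).image (hyb (D.erase f) c₁ c₂))).erase (c₁ f) := by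
        ext τ
        simp only [Finset.mem_image, Finset.mem_erase, Finset.mem_insert]
        constructor
        · rintro ⟨g, hg, rfl⟩
          by_cases h4 : g = f
          · rw [h4, hD1]
            exact ⟨Ne.symm heq, Or.inl rfl⟩
          · rw [hD3 g h4]
            refine ⟨?_, Or.inr ⟨g, hg, rfl⟩⟩
            rw [← hD2]
            exact fun h5 => h4 (hρ'.injOn hg hfU h5)
        · rintro ⟨h4, rfl | ⟨g, hg, rfl⟩⟩
          · exact ⟨f, hfU, hD1⟩
          · have h5 : g ≠ f := fun h6 => h4 (by rw [h6, hD2])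
            exact ⟨g, hg, hD3 g h5⟩
      have h6 := hρ.hypertree hU
      have h7 := hρ.collapsible
      rw [himg] at h6 h7 ⊢
      exact hj.snoc h6 h7 (exchange_of hn (hρ'.hypertree hU) hσ (h₂ f hfU).1 h6)

/-- Two collapsible hypertrees with the same remainder are joined by at most `binom(n - 1, d)`
exchanges. -/
theorem path (hn : 0 < n) {d : ℕ} {R : Finset (Finset (Fin n))}
    {c₁ c₂ : Finset (Fin n) → Finset (Fin n)} {ρ₁ ρ₂ : Finset (Fin n) → ℕ} (h₁ : Good d R c₁ ρ₁)
    (h₂ : Good d R c₂ ρ₂) (hU : (U d R).card = (n - 1).choose d) :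
    ∃ m ≤ (n - 1).choose d, Joined d m ((U d R).image c₁) ((U d R).image c₂) := by
  obtain ⟨m, hm, hj⟩ := path_aux hn h₁ h₂ hU _ (U d R) rfl (Finset.Subset.refl _) (by
    intro f _ g _ hgd _
    by_cases hg : g ∈ R
    · exact Or.inl hg
    · exact Or.inr (mem_U.2 ⟨hgd, hg⟩))
  have h3 : (U d R).image (hyb (U d R) c₁ c₂) = (U d R).image c₂ := by
    refine Finset.image_congr ?_
    intro f hf
    have hf' : f ∈ U d R := hf
    simp [hyb, hf']
  rw [h3] at hj
  exact ⟨m, by omega, hj⟩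

theorem common_remainder (hn : 0 < n) {d : ℕ} {R T T' : Finset (Finset (Fin n))}
    (hT : Hypertree d T) (hT' : Hypertree d T') (h : CollapsesTo R (allFaces n d) T)
    (h' : CollapsesTo R (allFaces n d) T') : ∃ m ≤ (n - 1).choose d, Joined d m T T' := by
  obtain ⟨c, ρ, h1, h2⟩ := h.good hT.1
  obtain ⟨c', ρ', h1', h2'⟩ := h'.good hT'.1
  have hU : (U d R).card = (n - 1).choose d := by
    rw [← h1.card, ← h2, hT.2.2]
  rw [h2, h2']
  exact path hn h1 h1' hU

end Pool.Agent.Q158.HT
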