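import Pool.Agent.Q158.HT.Two

/-! # At most `d + 3` vertices: every hypertree collapses to the star at a given vertex -/

set_option autoImplicit false

namespace Pool.Agent.Q158.HT

open Finset

variable {n : ℕ}

/-- the graph of the pairs whose complements are not in `T` -/
def co (T : Finset (Finset (Fin n))) : SimpleGraph (Fin n) where
  Adj x y := x ≠ y ∧ ({x, y} : Finset (Fin n))ᶜ ∉ T
  symm := ⟨fun x y h => ⟨Ne.symm h.1, by rw [Finset.pair_comm]; exact h.2⟩⟩
  loopless := ⟨fun x h => h.1 rfl⟩

theorem card_compl_pair {d : ℕ} (hnd : n = d + 3) {x y : Fin n} (hxy : x ≠ y) :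
    (({x, y} : Finset (Fin n))ᶜ).card = d + 1 := by
  rw [Finset.card_compl, Finset.card_pair hxy, Fintype.card_fin]
  omega

theorem Good.coReach {d : ℕ} {R : Finset (Finset (Fin n))}
    {c : Finset (Fin n) → Finset (Fin n)} {ρ : Finset (Fin n) → ℕ} (h : Good d R c ρ)
    (N : ℕ) (hN : ∀ g, ρ g < N) :
    ∀ (k : ℕ) (f : Finset (Fin n)), f ∈ U d R → N - ρ f ≤ k → ∀ x y : Fin n, x ≠ y →
      c f = ({x, y} : Finset (Fin n))ᶜ → (co ((U d R).image c)).Reachable x y := by
  intro k
  induction k using Nat.strong_induction_on with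
  | _ k ih =>
    intro f hf hk x y hxy hcf
    obtain ⟨h1, h2, h3⟩ := h f hf
    obtain ⟨hfd, hfR⟩ := mem_U.1 hf
    obtain ⟨z, hz⟩ : (c f \ f).Nonempty := by
      rw [← Finset.card_pos, Finset.card_sdiff_of_subset h2, h1, hfd]
      omega
    rw [Finset.mem_sdiff, hcf, Finset.mem_compl, Finset.mem_insert, Finset.mem_singleton,
      not_or] at hz
    obtain ⟨⟨hzx, hzy⟩, hzf⟩ := hz
    have hxf : x ∉ f := by
      intro h4
      have h5 := h2 h4
      rw [hcf, Finset.mem_compl] at h5
      exact h5 (by simp)
    have hyf : y ∉ f := by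
      intro h4
      have h5 := h2 h4
      rw [hcf, Finset.mem_compl] at h5
      exact h5 (by simp)
    have key : ∀ a b : Fin n, a ∉ f → b ∉ f → a ≠ b →
        ({a, b} : Finset (Fin n)) ≠ {x, y} → (co ((U d R).image c)).Reachable a b := by
      intro a b ha hb hab hne
      by_cases h4 : ({a, b} : Finset (Fin n))ᶜ ∈ (U d R).image c
      · obtain ⟨g, hg, hgc⟩ := Finset.mem_image.1 h4
        have hfg : f ≠ g := by
          rintro rfl
          rw [hcf] at hgc
          exact hne (compl_injective hgc.symm)
        have hsub : f ⊆ c g := by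
          rw [hgc]
          intro t ht
          rw [Finset.mem_compl, Finset.mem_insert, Finset.mem_singleton, not_or]
          exact ⟨fun h5 => ha (h5 ▸ ht), fun h5 => hb (h5 ▸ ht)⟩
        have h5 := h.lt hg hf hsub hfg
        have h6 := hN g
        exact ih (N - ρ g) (by omega) g hg le_rfl a b hab hgc
      · exact SimpleGraph.Adj.reachable
          (show (co ((U d R).image c)).Adj a b from ⟨hab, h4⟩)
    have h5 := key x z hxf hzf (Ne.symm hzx) (by
      intro h6
      have : z ∈ ({x, y} : Finset (Fin n)) := h6 ▸ (by simp)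
      rw [Finset.mem_insert, Finset.mem_singleton] at this
      tauto)
    have h6 := key z y hzf hyf hzy (by
      intro h6
      have : z ∈ ({x, y} : Finset (Fin n)) := h6 ▸ (by simp)
      rw [Finset.mem_insert, Finset.mem_singleton] at this
      tauto)
    exact h5.trans h6

/-- the star at `w` -/
def st (d : ℕ) (w : Fin n) : Finset (Finset (Fin n)) :=
  Finset.univ.filter fun f => f.card = d ∧ w ∈ f

theorem mem_U_st {d : ℕ} {w : Fin n} {f : Finset (Fin n)} :
    f ∈ U d (st d w) ↔ f.card = d ∧ w ∉ f := by
  simp only [mem_U, st, Finset.mem_filter, Finset.mem_univ, true_and, not_and]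
  tauto

theorem card_U_st (d : ℕ) (w : Fin n) : (U d (st d w)).card = (n - 1).choose d := by
  have h1 : U d (st d w) = (Finset.univ.erase w).powersetCard d := by
    ext f
    rw [mem_U_st, Finset.mem_powersetCard]
    constructor
    · rintro ⟨h1, h2⟩
      exact ⟨fun x hx => Finset.mem_erase.2 ⟨fun h => h2 (h ▸ hx), Finset.mem_univ _⟩, h1⟩
    · rintro ⟨h1, h2⟩
      exact ⟨h2, fun h => (Finset.mem_erase.1 (h1 h)).1 rfl⟩
  rw [h1, Finset.card_powersetCard, Finset.card_erase_of_mem (Finset.mem_univ _), Finset.card_univ,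
    Fintype.card_fin]

theorem Hypertree.star {d : ℕ} (hnd : n = d + 3) {T : Finset (Finset (Fin n))}
    (hT : Hypertree d T) (h : Collapsible T) (w : Fin n) :
    ∃ (c : Finset (Fin n) → Finset (Fin n)) (ρ : Finset (Fin n) → ℕ), Good d (st d w) c ρ ∧
      T = (U d (st d w)).image c := by
  classical
  obtain ⟨R, c₀, ρ₀, hg, hTc⟩ := h.good hT.1
  set H := co T with hH
  have hconn : ∀ x, H.Reachable w x := by
    intro x
    by_cases hx : w = x
    · rw [hx]
    · by_cases h1 : ({w, x} : Finset (Fin n))ᶜ ∈ T
      · rw [hTc] at h1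
        obtain ⟨f, hf, hfc⟩ := Finset.mem_image.1 h1
        have h2 := hg.coReach ((Finset.univ.sup ρ₀) + 1)
          (fun g => Nat.lt_succ_of_le (Finset.le_sup (Finset.mem_univ g))) _ f hf le_rfl w x hx hfc
        rw [← hTc] at h2
        exact h2
      · exact SimpleGraph.Adj.reachable (show H.Adj w x from ⟨hx, h1⟩)
  have hpar : ∀ x, x ≠ w → ∃ y, H.Adj x y ∧ H.dist w y < H.dist w x :=
    fun x hx => exists_closer (hconn x) hx
  choose! p hp using hpar
  -- the pairs
  set P := Finset.univ.filter fun e : Finset (Fin n) => e.card = 2 ∧ eᶜ ∉ T with hP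
  have hPcard : P.card + T.card = n.choose 2 := by
    have h1 : T.card = (Finset.univ.filter fun e : Finset (Fin n) => e.card = 2 ∧ eᶜ ∈ T).card := by
      refine Finset.card_bij (fun σ _ => σᶜ) ?_ ?_ ?_
      · intro σ hσ
        refine Finset.mem_filter.2 ⟨Finset.mem_univ _, ?_, by rwa [compl_compl]⟩
        rw [Finset.card_compl, hT.1 σ hσ, Fintype.card_fin]
        omega
      · intro σ _ τ _ h2
        exact compl_injective h2
      · intro e he
        exact ⟨eᶜ, (Finset.mem_filter.1 he).2.2, compl_compl _⟩
    have h2 : (Finset.univ.powersetCard 2 : Finset (Finset (Fin n))).card = n.choose 2 := by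
      rw [Finset.card_powersetCard, Finset.card_univ, Fintype.card_fin]
    rw [h1, ← h2, hP, ← Finset.card_union_of_disjoint]
    · congr 1
      ext e
      simp only [Finset.mem_union, Finset.mem_filter, Finset.mem_univ, true_and,
        Finset.mem_powersetCard, Finset.subset_univ]
      tauto
    · rw [Finset.disjoint_left]
      intro e h3 h4
      exact (Finset.mem_filter.1 h3).2.2 (Finset.mem_filter.1 h4).2.2
  have hPn : P.card = n - 1 := by
    have h1 : (n - 1).choose d = (n - 1).choose 2 := by
      have h3 : n - 1 = d + 2 := by omega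
      rw [h3]
      exact Nat.choose_symm_add
    have h2 : n.choose 2 = (n - 1).choose 1 + (n - 1).choose 2 := by
      obtain ⟨m, rfl⟩ : ∃ m, n = m + 1 := ⟨n - 1, by omega⟩
      rfl
    rw [hT.2.2, h1, h2, Nat.choose_one_right] at hPcard
    omega
  have himg : (Finset.univ.erase w).image (fun x => ({x, p x} : Finset (Fin n))) = P := by
    refine Finset.eq_of_subset_of_card_le ?_ ?_
    · intro e he
      obtain ⟨x, hx, rfl⟩ := Finset.mem_image.1 he
      have h1 := (hp x (Finset.mem_erase.1 hx).1).1
      exact Finset.mem_filter.2 ⟨Finset.mem_univ _, Finset.card_pair h1.1, h1.2⟩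
    · rw [Finset.card_image_of_injOn, Finset.card_erase_of_mem (Finset.mem_univ _),
        Finset.card_univ, Fintype.card_fin, hPn]
      intro x hx y hy hxy
      have hx' : x ≠ w := (Finset.mem_erase.1 hx).1
      have hy' : y ≠ w := (Finset.mem_erase.1 hy).1
      simp only at hxy
      by_contra hne
      have h1 : x ∈ ({y, p y} : Finset (Fin n)) := hxy ▸ (by simp)
      have h2 : y ∈ ({x, p x} : Finset (Fin n)) := hxy ▸ (by simp)
      rw [Finset.mem_insert, Finset.mem_singleton] at h1 h2
      have h3 := h1.resolve_left hne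
      have h4 := h2.resolve_left (Ne.symm hne)
      have h5 := (hp x hx').2
      have h6 := (hp y hy').2
      rw [← h3] at h6
      rw [← h4] at h5
      omega
  have hedge : ∀ a b : Fin n, a ≠ b → ({a, b} : Finset (Fin n))ᶜ ∉ T →
      (a ≠ w ∧ b = p a) ∨ (b ≠ w ∧ a = p b) := by
    intro a b hab h1
    have h2 : ({a, b} : Finset (Fin n)) ∈ P :=
      Finset.mem_filter.2 ⟨Finset.mem_univ _, Finset.card_pair hab, h1⟩
    rw [← himg] at h2
    obtain ⟨x, hx, hxe⟩ := Finset.mem_image.1 h2
    have hx' : x ≠ w := (Finset.mem_erase.1 hx).1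
    have h3 : x ∈ ({a, b} : Finset (Fin n)) := hxe ▸ (by simp)
    have h4 : p x ∈ ({a, b} : Finset (Fin n)) := by
      rw [← hxe]
      simp
    have h5 : x ≠ p x := (hp x hx').1.1
    rw [Finset.mem_insert, Finset.mem_singleton] at h3 h4
    rcases h3 with rfl | rfl
    · left
      rcases h4 with h4 | h4
      · exact absurd h4.symm h5
      · exact ⟨hx', h4.symm⟩
    · right
      rcases h4 with h4 | h4
      · exact ⟨hx', h4.symm⟩
      · exact absurd h4.symm h5
  -- the choice function
  let Q : Finset (Fin n) → Fin n → Prop := fun f x => x ≠ w ∧ p x ≠ w ∧ fᶜ = {w, x, p x}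
  let c : Finset (Fin n) → Finset (Fin n) := fun f =>
    if insert w f ∈ T then insert w f else if hQ : ∃ x, Q f x then insert (p hQ.choose) f else f
  obtain ⟨N, hN⟩ : ∃ N, ∀ x : Fin n, H.dist w x < N :=
    ⟨(Finset.univ.sup fun x => H.dist w x) + 1,
      fun g => Nat.lt_succ_of_le (Finset.le_sup (f := fun x => H.dist w x) (Finset.mem_univ g))⟩
  let ρ : Finset (Fin n) → ℕ := fun f =>
    if insert w f ∈ T then 0 else N - (fᶜ.erase w).sup fun x => H.dist w x
  -- the sets of the second kind
  have hQex : ∀ f, f.card = d → w ∉ f → insert w f ∉ T → ∃ x, Q f x := by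
    intro f hfd hwf hfT
    have h1 : (insert w f)ᶜ.card = 2 := by
      rw [Finset.card_compl, Finset.card_insert_of_notMem hwf, hfd, Fintype.card_fin]
      omega
    obtain ⟨a, b, hab, hfab⟩ := Finset.card_eq_two.1 h1
    have h2 : ({a, b} : Finset (Fin n))ᶜ = insert w f := by rw [← hfab, compl_compl]
    have haw : a ≠ w := by
      rintro rfl
      have : a ∈ ({a, b} : Finset (Fin n))ᶜ := h2 ▸ Finset.mem_insert_self _ _
      rw [Finset.mem_compl] at this
      exact this (by simp)
    have hbw : b ≠ w := by
      rintro rfl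
      have : b ∈ ({a, b} : Finset (Fin n))ᶜ := h2 ▸ Finset.mem_insert_self _ _
      rw [Finset.mem_compl] at this
      exact this (by simp)
    have h3 : fᶜ = insert w (insert w f)ᶜ := by
      ext t
      simp only [Finset.mem_compl, Finset.mem_insert, not_or]
      constructor
      · intro h4
        by_cases h5 : t = w
        · exact Or.inl h5
        · exact Or.inr ⟨h5, h4⟩
      · rintro (rfl | h4)
        · exact hwf
        · exact h4.2
    rcases hedge a b hab (by rw [h2]; exact hfT) with ⟨-, h4⟩ | ⟨-, h4⟩
    · refine ⟨a, haw, h4 ▸ hbw, ?_⟩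
      rw [h3, hfab, h4]
    · refine ⟨b, hbw, h4 ▸ haw, ?_⟩
      rw [h3, hfab, h4, Finset.pair_comm]
  have hρ2 : ∀ f x, Q f x → insert w f ∉ T → ρ f = N - H.dist w x := by
    intro f x ⟨hxw, hpw, hf⟩ hfT
    show (if insert w f ∈ T then 0 else N - (fᶜ.erase w).sup fun x => H.dist w x) = _
    rw [if_neg hfT, hf]
    have h1 : ({w, x, p x} : Finset (Fin n)).erase w = {x, p x} := by
      rw [Finset.erase_insert]
      rw [Finset.mem_insert, Finset.mem_singleton, not_or]
      exact ⟨Ne.symm hxw, Ne.symm hpw⟩
    rw [h1, Finset.sup_insert, Finset.sup_singleton]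
    have h2 := (hp x hxw).2
    congr 1
    exact sup_eq_left.2 h2.le
  have hgood : Good d (st d w) c ρ := by
    intro f hf
    obtain ⟨hfd, hwf⟩ := mem_U_st.1 hf
    by_cases hfT : insert w f ∈ T
    · have hc : c f = insert w f := if_pos hfT
      rw [hc]
      refine ⟨hT.1 _ hfT, Finset.subset_insert _ _, ?_⟩
      intro g hgs hgd hne
      left
      refine Finset.mem_filter.2 ⟨Finset.mem_univ _, hgd, ?_⟩
      by_contra h1
      apply hne
      refine Finset.eq_of_subset_of_card_le ?_ (by omega)
      intro t ht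
      rcases Finset.mem_insert.1 (hgs ht) with h2 | h2
      · exact absurd (h2 ▸ ht) h1
      · exact h2
    · have hQ := hQex f hfd hwf hfT
      have hc : c f = insert (p hQ.choose) f := by
        show (if insert w f ∈ T then insert w f else
          if hQ : ∃ x, Q f x then insert (p hQ.choose) f else f) = _
        rw [if_neg hfT, dif_pos hQ]
      have hρf := hρ2 f _ hQ.choose_spec hfT
      obtain ⟨hxw, hpw, hfc⟩ := hQ.choose_spec
      rw [hc]
      generalize hQ.choose = x at hρf hxw hpw hfc
      have hpf : p x ∉ f := by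
        rw [← Finset.mem_compl, hfc]
        simp
      have hxf : x ∉ f := by
        rw [← Finset.mem_compl, hfc]
        simp
      refine ⟨by rw [Finset.card_insert_of_notMem hpf, hfd], Finset.subset_insert _ _, ?_⟩
      intro g hgs hgd hne
      right
      have hpg : p x ∈ g := by
        by_contra h1
        apply hne
        refine Finset.eq_of_subset_of_card_le ?_ (by omega)
        intro t ht
        rcases Finset.mem_insert.1 (hgs ht) with h2 | h2
        · exact absurd (h2 ▸ ht) h1
        · exact h2
      have hwg : w ∉ g := by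
        intro h1
        rcases Finset.mem_insert.1 (hgs h1) with h2 | h2
        · exact hpw h2.symm
        · exact hwf h2
      have hxp : x ≠ p x := (hp x hxw).1.1
      have hxg : x ∉ g := by
        intro h1
        rcases Finset.mem_insert.1 (hgs h1) with h2 | h2
        · exact hxp h2
        · exact hxf h2
      have hNx := hN x
      by_cases hgT : insert w g ∈ T
      · have h1 : ρ g = 0 := if_pos hgT
        rw [h1, hρf]
        omega
      · obtain ⟨z, hQz⟩ := hQex g hgd hwg hgT
        rw [hρ2 g z hQz hgT, hρf]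
        obtain ⟨hzw, hpzw, hgc⟩ := hQz
        have h1 : x ∈ gᶜ := Finset.mem_compl.2 hxg
        rw [hgc, Finset.mem_insert, Finset.mem_insert, Finset.mem_singleton] at h1
        rcases h1 with h1 | h1 | h1
        · exact absurd h1 hxw
        · exfalso
          have h2 : p x ∈ gᶜ := by
            rw [hgc, h1]
            simp
          exact (Finset.mem_compl.1 h2) hpg
        · have h2 := (hp z hzw).2
          rw [← h1] at h2
          have h3 := hN z
          omega
  refine ⟨c, ρ, hgood, ?_⟩
  symm
  refine Finset.eq_of_subset_of_card_le ?_ (by rw [hgood.card, card_U_st, hT.2.2])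
  intro σ hσ
  obtain ⟨f, hf, rfl⟩ := Finset.mem_image.1 hσ
  obtain ⟨hfd, hwf⟩ := mem_U_st.1 hf
  by_cases hfT : insert w f ∈ T
  · have hc : c f = insert w f := if_pos hfT
    rw [hc]
    exact hfT
  · have hQ := hQex f hfd hwf hfT
    have hc : c f = insert (p hQ.choose) f := by
      show (if insert w f ∈ T then insert w f else
        if hQ : ∃ x, Q f x then insert (p hQ.choose) f else f) = _
      rw [if_neg hfT, dif_pos hQ]
    obtain ⟨hxw, hpw, hfc⟩ := hQ.choose_spec
    rw [hc]
    generalize hQ.choose = x at hxw hpw hfc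
    have hxp : x ≠ p x := (hp x hxw).1.1
    have h1 : insert (p x) f = ({w, x} : Finset (Fin n))ᶜ := by
      have h2 : f = ({w, x, p x} : Finset (Fin n))ᶜ := by rw [← hfc, compl_compl]
      rw [h2]
      ext t
      simp only [Finset.mem_insert, Finset.mem_compl, Finset.mem_singleton, not_or]
      constructor
      · rintro (rfl | h3)
        · exact ⟨hpw, Ne.symm hxp⟩
        · exact ⟨h3.1, h3.2.1⟩
      · rintro ⟨h3, h4⟩
        by_cases h5 : t = p x
        · exact Or.inl h5
        · exact Or.inr ⟨h3, h4, h5⟩
    rw [h1]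
    by_contra h2
    rcases hedge w x (Ne.symm hxw) h2 with ⟨h3, -⟩ | ⟨-, h3⟩
    · exact h3 rfl
    · exact hpw h3.symm

/-- at most `d + 3` vertices -/
theorem small {d : ℕ} (hd : d + 1 ≤ n) (hnd : n ≤ d + 3) {T T' : Finset (Finset (Fin n))}
    (hT : Hypertree d T) (hT' : Hypertree d T') (h : Collapsible T) (h' : Collapsible T') :
    ∃ m ≤ (n - 1).choose d, Joined d m T T' := by
  classical
  have hn : 0 < n := by omega
  have hpos : 0 < (n - 1).choose d := Nat.choose_pos (by omega)
  rcases Nat.lt_or_ge n (d + 3) with h1 | h1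
  · -- at most one face is missing
    have hall : (allFaces n (d + 1)).card = n.choose (d + 1) := by
      have h2 : allFaces n (d + 1) = Finset.univ.powersetCard (d + 1) := by
        ext f
        simp [allFaces, Finset.mem_powersetCard]
      rw [h2, Finset.card_powersetCard, Finset.card_univ, Fintype.card_fin]
    have hsub : ∀ T : Finset (Finset (Fin n)), Hypertree d T → T ⊆ allFaces n (d + 1) := by
      intro T hT σ hσ
      simpa [allFaces] using hT.1 σ hσ
    have hcard : (allFaces n (d + 1)).card ≤ (n - 1).choose d + 1 := by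
      rw [hall]
      have h3 : n = d + 1 ∨ n = d + 2 := by omega
      rcases h3 with rfl | rfl
      · simp
      · have h4 : d + 2 - 1 = d + 1 := by omega
        rw [h4]
        have h5 : (d + 2).choose (d + 1) = d + 2 := Nat.choose_succ_self_right (d + 1)
        have h6 : (d + 1).choose d = d + 1 := Nat.choose_succ_self_right d
        omega
    by_cases heq : T = T'
    · subst heq
      exact ⟨0, Nat.zero_le _, Joined.refl hT h⟩
    · obtain ⟨σ, hσ', hσ⟩ : ∃ σ ∈ T', σ ∉ T := by
        by_contra h2
        push Not at h2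
        exact heq (Finset.eq_of_subset_of_card_le h2 (by rw [hT.2.2, hT'.2.2])).symm
      have h2 : insert σ T = allFaces n (d + 1) := by
        refine Finset.eq_of_subset_of_card_le ?_ ?_
        · intro τ hτ
          rcases Finset.mem_insert.1 hτ with rfl | hτ
          · exact hsub T' hT' hσ'
          · exact hsub T hT hτ
        · rw [Finset.card_insert_of_notMem hσ, hT.2.2]
          exact hcard
      obtain ⟨τ, hτ, hτ'⟩ : ∃ τ ∈ T, τ ∉ T' := by
        by_contra h3
        push Not at h3
        exact heq (Finset.eq_of_subset_of_card_le h3 (by rw [hT.2.2, hT'.2.2]))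
      have h3 : T' = (insert σ T).erase τ := by
        refine Finset.eq_of_subset_of_card_le ?_ ?_
        · intro κ hκ
          refine Finset.mem_erase.2 ⟨fun h4 => hτ' (h4 ▸ hκ), ?_⟩
          rw [h2]
          exact hsub T' hT' hκ
        · rw [Finset.card_erase_of_mem (Finset.mem_insert_of_mem hτ),
            Finset.card_insert_of_notMem hσ, hT.2.2, hT'.2.2]
          omega
      refine ⟨1, hpos, ?_⟩
      have h4 : Exchange d T T' := by
        rw [h3] at hT' ⊢
        exact exchange_of hn hT hσ (by
          have := hsub T hT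
          have h5 : σ ∈ allFaces n (d + 1) := h2 ▸ Finset.mem_insert_self _ _
          simpa [allFaces] using h5) hT'
      exact (Joined.refl hT h).snoc hT' h' h4
  · have hnd' : n = d + 3 := by omega
    obtain ⟨c, ρ, h2, h3⟩ := hT.star hnd' h ⟨0, hn⟩
    obtain ⟨c', ρ', h2', h3'⟩ := hT'.star hnd' h' ⟨0, hn⟩
    rw [h3, h3']
    exact path hn h2 h2' (card_U_st d ⟨0, hn⟩)

end Pool.Agent.Q158.HT
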