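import Pool.Agent.Q158.HT.Path

/-! # Dimension two: every remainder is a connected graph, and the star at a vertex collapses to it -/

set_option autoImplicit false

namespace Pool.Agent.Q158.HT

open Finset

variable {n : ℕ}

/-- the graph of the pairs in `R` -/
def gr (R : Finset (Finset (Fin n))) : SimpleGraph (Fin n) where
  Adj x y := x ≠ y ∧ ({x, y} : Finset (Fin n)) ∈ R
  symm := ⟨fun x y h => ⟨Ne.symm h.1, by rw [Finset.pair_comm]; exact h.2⟩⟩
  loopless := ⟨fun x h => h.1 rfl⟩

theorem Good.reach {R : Finset (Finset (Fin n))} {c : Finset (Fin n) → Finset (Fin n)}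
    {ρ : Finset (Fin n) → ℕ} (h : Good 2 R c ρ) :
    ∀ (k : ℕ) (x y : Fin n), x ≠ y → ρ {x, y} ≤ k → (gr R).Reachable x y := by
  intro k
  induction k using Nat.strong_induction_on with
  | _ k ih =>
    intro x y hxy hk
    have hc2 : ({x, y} : Finset (Fin n)).card = 2 := Finset.card_pair hxy
    by_cases hR : ({x, y} : Finset (Fin n)) ∈ R
    · exact SimpleGraph.Adj.reachable (show (gr R).Adj x y from ⟨hxy, hR⟩)
    · obtain ⟨h1, h2, h3⟩ := h {x, y} (mem_U.2 ⟨hc2, hR⟩)
      obtain ⟨z, hz⟩ : (c {x, y} \ {x, y}).Nonempty := by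
        rw [← Finset.card_pos, Finset.card_sdiff_of_subset h2, h1, hc2]
        omega
      rw [Finset.mem_sdiff, Finset.mem_insert, Finset.mem_singleton, not_or] at hz
      obtain ⟨hz1, hzx, hzy⟩ := hz
      have hx : x ∈ c {x, y} := h2 (by simp)
      have hy : y ∈ c {x, y} := h2 (by simp)
      have key : ∀ a b : Fin n, a ∈ c {x, y} → b ∈ c {x, y} → a ≠ b →
          ({a, b} : Finset (Fin n)) ≠ {x, y} → (gr R).Reachable a b := by
        intro a b ha hb hab hne
        rcases h3 {a, b} (by
          intro t ht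
          rcases Finset.mem_insert.1 ht with rfl | ht
          · exact ha
          · rw [Finset.mem_singleton.1 ht]
            exact hb) (Finset.card_pair hab) hne with h4 | h4
        · exact SimpleGraph.Adj.reachable (show (gr R).Adj a b from ⟨hab, h4⟩)
        · exact ih (ρ {a, b}) (by omega) a b hab le_rfl
      have h5 := key x z hx hz1 (Ne.symm hzx) (by
        intro h6
        have : z ∈ ({x, y} : Finset (Fin n)) := h6 ▸ (by simp)
        rw [Finset.mem_insert, Finset.mem_singleton] at this
        tauto)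
      have h6 := key z y hz1 hy hzy (by
        intro h6
        have : z ∈ ({x, y} : Finset (Fin n)) := h6 ▸ (by simp)
        rw [Finset.mem_insert, Finset.mem_singleton] at this
        tauto)
      exact h5.trans h6

/-- a neighbour closer to `v` -/
theorem exists_closer {G : SimpleGraph (Fin n)} {v x : Fin n} (h : G.Reachable v x) (hne : x ≠ v) :
    ∃ y, G.Adj x y ∧ G.dist v y < G.dist v x := by
  obtain ⟨p, hp⟩ := h.exists_walk_length_eq_dist
  have hlen : 0 < p.length := by
    rw [hp]
    exact h.pos_dist_of_ne (Ne.symm hne)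
  refine ⟨p.getVert (p.length - 1), ?_, ?_⟩
  · have h1 := p.adj_getVert_succ (i := p.length - 1) (by omega)
    rw [show p.length - 1 + 1 = p.length by omega, SimpleGraph.Walk.getVert_length] at h1
    exact h1.symm
  · have h1 : (p.take (p.length - 1)).length = p.length - 1 := by
      rw [SimpleGraph.Walk.take_length]
      omega
    have h2 := SimpleGraph.dist_le (p.take (p.length - 1))
    omega

theorem Good.star {R : Finset (Finset (Fin n))} {c : Finset (Fin n) → Finset (Fin n)}
    {ρ : Finset (Fin n) → ℕ} (h : Good 2 R c ρ) (v : Fin n)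
    (hU : (U 2 R).card = (n - 1).choose 2) :
    ∃ (c' : Finset (Fin n) → Finset (Fin n)) (ρ' : Finset (Fin n) → ℕ), Good 2 R c' ρ' ∧
      (U 2 R).image c' = Finset.univ.filter fun σ : Finset (Fin n) => v ∈ σ ∧ σ.card = 2 + 1 := by
  classical
  set G := gr R with hG
  have hconn : ∀ x, G.Reachable v x := by
    intro x
    by_cases hx : v = x
    · rw [hx]
    · exact h.reach _ v x hx le_rfl
  -- the choice of the third vertex
  let Q : Finset (Fin n) → Fin n → Prop := fun f y =>
    v ∈ f ∧ ∃ x, x ≠ v ∧ f = {v, x} ∧ G.Adj x y ∧ G.dist v y < G.dist v x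
  let c' : Finset (Fin n) → Finset (Fin n) := fun f =>
    if hQ : ∃ y, Q f y then insert hQ.choose f else insert v f
  let Df : Finset (Fin n) → ℕ := fun f => ∑ x ∈ f, G.dist v x
  obtain ⟨N, hN⟩ : ∃ N, ∀ g : Finset (Fin n), Df g < N :=
    ⟨(Finset.univ.sup Df) + 1, fun g => Nat.lt_succ_of_le (Finset.le_sup (Finset.mem_univ g))⟩
  let ρ' : Finset (Fin n) → ℕ := fun f => if v ∈ f then Df f else N
  have hgood : Good 2 R c' ρ' := by
    intro f hf
    obtain ⟨hf2, hfR⟩ := mem_U.1 hf
    by_cases hv : v ∈ f
    · obtain ⟨x, hxv, hfx⟩ : ∃ x, x ≠ v ∧ f = {v, x} := by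
        obtain ⟨a, b, hab, rfl⟩ := Finset.card_eq_two.1 hf2
        rcases Finset.mem_insert.1 hv with h1 | h1
        · exact ⟨b, by rw [h1]; exact Ne.symm hab, by rw [h1]⟩
        · have h2 := Finset.mem_singleton.1 h1
          exact ⟨a, by rw [h2]; exact hab, by rw [h2, Finset.pair_comm]⟩
      have hQ : ∃ y, Q f y := by
        obtain ⟨y, hy1, hy2⟩ := exists_closer (hconn x) hxv
        exact ⟨y, hv, x, hxv, hfx, hy1, hy2⟩
      have hc' : c' f = insert hQ.choose f := by
        show (if hQ : ∃ y, Q f y then insert hQ.choose f else insert v f) = _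
        rw [dif_pos hQ]
      obtain ⟨-, x', hx'v, hfx', hadj, hdist⟩ := hQ.choose_spec
      set y := hQ.choose with hy
      have hyf : y ∉ f := by
        rw [hfx', Finset.mem_insert, Finset.mem_singleton, not_or]
        refine ⟨?_, fun h1 => hadj.1 h1.symm⟩
        intro h1
        apply hfR
        rw [hfx', Finset.pair_comm]
        rw [h1] at hadj
        exact hadj.2
      rw [hc']
      refine ⟨by rw [Finset.card_insert_of_notMem hyf, hf2], Finset.subset_insert _ _, ?_⟩
      intro g hg hg2 hne
      have hyg : y ∈ g := by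
        by_contra h1
        apply hne
        refine Finset.eq_of_subset_of_card_le ?_ (by omega)
        intro t ht
        rcases Finset.mem_insert.1 (hg ht) with h2 | h2
        · exact absurd (h2 ▸ ht) h1
        · exact h2
      obtain ⟨a, hag, hay⟩ : ∃ a ∈ g, a ≠ y := by
        by_contra h1
        push Not at h1
        have : g ⊆ {y} := fun t ht => Finset.mem_singleton.2 (h1 t ht)
        have := Finset.card_le_card this
        simp at this
        omega
      have hgy : g = {a, y} := by
        symm
        refine Finset.eq_of_subset_of_card_le ?_ (by rw [Finset.card_pair hay]; omega)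
        intro t ht
        rcases Finset.mem_insert.1 ht with rfl | ht
        · exact hag
        · rw [Finset.mem_singleton.1 ht]
          exact hyg
      have haf : a ∈ f := by
        rcases Finset.mem_insert.1 (hg hag) with h2 | h2
        · exact absurd h2 hay
        · exact h2
      rw [hfx', Finset.mem_insert, Finset.mem_singleton] at haf
      rcases haf with rfl | rfl
      · right
        have h1 : ρ' f = Df f := if_pos hv
        have h2 : ρ' g = Df g := if_pos (by rw [hgy]; simp)
        rw [h1, h2, hgy, hfx']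
        show ∑ x ∈ {a, y}, G.dist a x < ∑ x ∈ {a, x'}, G.dist a x
        rw [Finset.sum_pair hay, Finset.sum_pair (Ne.symm hx'v), SimpleGraph.dist_self]
        omega
      · left
        rw [hgy]
        exact hadj.2
    · have hQ : ¬ ∃ y, Q f y := fun ⟨y, h1⟩ => hv h1.1
      have hc' : c' f = insert v f := by
        show (if hQ : ∃ y, Q f y then insert hQ.choose f else insert v f) = _
        rw [dif_neg hQ]
      rw [hc']
      refine ⟨by rw [Finset.card_insert_of_notMem hv, hf2], Finset.subset_insert _ _, ?_⟩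
      intro g hg hg2 hne
      right
      have hvg : v ∈ g := by
        by_contra h1
        apply hne
        refine Finset.eq_of_subset_of_card_le ?_ (by omega)
        intro t ht
        rcases Finset.mem_insert.1 (hg ht) with h2 | h2
        · exact absurd (h2 ▸ ht) h1
        · exact h2
      have h1 : ρ' f = N := if_neg hv
      have h2 : ρ' g = Df g := if_pos hvg
      rw [h1, h2]
      exact hN g
  refine ⟨c', ρ', hgood, ?_⟩
  refine Finset.eq_of_subset_of_card_le ?_ (by rw [card_star v 2, hgood.card, hU])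
  intro σ hσ
  obtain ⟨f, hf, rfl⟩ := Finset.mem_image.1 hσ
  refine Finset.mem_filter.2 ⟨Finset.mem_univ _, ?_, (hgood f hf).1⟩
  by_cases hv : v ∈ f
  · exact (hgood f hf).2.1 hv
  · have hQ : ¬ ∃ y, Q f y := fun ⟨y, h1⟩ => hv h1.1
    show v ∈ (if hQ : ∃ y, Q f y then insert hQ.choose f else insert v f)
    rw [dif_neg hQ]
    exact Finset.mem_insert_self _ _

theorem two (hn : 0 < n) {T T' : Finset (Finset (Fin n))}
    (hT : Hypertree 2 T) (hT' : Hypertree 2 T') (h : Collapsible T) (h' : Collapsible T') :
    ∃ m ≤ 2 * (n - 1).choose 2, Joined 2 m T T' := by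
  obtain ⟨R, c, ρ, h1, h2⟩ := h.good hT.1
  obtain ⟨R', c', ρ', h1', h2'⟩ := h'.good hT'.1
  have hU : (U 2 R).card = (n - 1).choose 2 := by rw [← h1.card, ← h2, hT.2.2]
  have hU' : (U 2 R').card = (n - 1).choose 2 := by rw [← h1'.card, ← h2', hT'.2.2]
  obtain ⟨d, δ, h3, h4⟩ := h1.star ⟨0, hn⟩ hU
  obtain ⟨d', δ', h3', h4'⟩ := h1'.star ⟨0, hn⟩ hU'
  obtain ⟨m, hm, hj⟩ := path hn h1 h3 hU
  obtain ⟨m', hm', hj'⟩ := path hn h3' h1' hU'
  rw [h4, ← h2] at hj
  rw [h4', ← h2'] at hj'
  exact ⟨m + m', by omega, hj.trans _ _ hj'⟩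

end Pool.Agent.Q158.HT
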